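import Pool.Agent.Lib.MP_17a322_nt.GE.Defs

/-!
The inequality for the gradient of an irreducible form at all but few of its integral zeros: definitions.
-/

namespace Pool.Agent.Lib.MP_17a322_nt.GE

open MvPolynomial

/-- The inequality for the gradient of one form with the exponent `a`, with few exceptions: outside a proper closed
subset of `H = 0`, for all but at most `C B ^ b` of the primitive integral zeros `p` of `H` with `|p| ≤ B` one has
`|∇H(p)| ≤ C |p| ^ a gcd(∇H(p))`. -/
def GradX {n : ℕ} (a b : ℝ) (H : MvPolynomial (Fin (n + 1)) ℤ) : Prop :=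
  ∃ (G : MvPolynomial (Fin (n + 1)) ℤ) (C : ℝ), (∃ e', G.IsHomogeneous e') ∧
    ¬ map (Int.castRingHom ℚ) H ∣ map (Int.castRingHom ℚ) G ∧
    ∀ B : ℝ, 1 ≤ B →
      (({p : Fin (n + 1) → ℤ | Finset.univ.gcd p = 1 ∧ eval p H = 0 ∧ eval p G ≠ 0 ∧ ‖p‖ ≤ B ∧
        C * ‖p‖ ^ a * ((Finset.univ.gcd fun j => eval p (pderiv j H) : ℤ) : ℝ) <
          ‖fun j => eval p (pderiv j H)‖}.ncard : ℕ) : ℝ) ≤ C * B ^ b

/-- The inequality with the exponents `(α + o(1)) n` and with `O(B ^ ((β + o(1)) n))` exceptions: for every `δ > 0`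
there are arbitrarily large `n` such that for all irreducible forms in `n + 1` variables the inequality with the
exponent `(α + δ) n` holds with at most `C B ^ ((β + δ) n)` exceptions of height at most `B`. -/
def GradS (α β : ℝ) : Prop :=
  ∀ δ : ℝ, 0 < δ → ∀ n₀ : ℕ, ∃ n : ℕ, n₀ ≤ n ∧ ∀ (e : ℕ) (H : MvPolynomial (Fin (n + 1)) ℤ), H.IsHomogeneous e →
    Irreducible (map (Int.castRingHom ℚ) H) → GradX ((α + δ) * n) ((β + δ) * n) H

end Pool.Agent.Lib.MP_17a322_nt.GE
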