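import Pool.Agent.Lib.MP_17a322_nt.GS.Step
import Pool.Agent.Lib.MP_17a322_nt.GE.Fin

/-!
The inequality for the gradients at all but few points implies the inequality at all points.
-/

namespace Pool.Agent.Lib.MP_17a322_nt.GE

open MvPolynomial

open Pool.Agent.Lib.MP_17a322_nt.GR

private theorem Fin_gcd0 {m : ℕ} (g : Fin m → ℤ) : 0 ≤ Finset.univ.gcd g := by
  have h1 := Int.abs_eq_normalize (Finset.univ.gcd g)
  rw [Finset.normalize_gcd] at h1
  rw [← h1]
  exact abs_nonneg _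

/-- The inequality without exceptions implies the one with exceptions. -/
theorem gradX_of_gradE {n : ℕ} {a a' b : ℝ} {H : MvPolynomial (Fin (n + 1)) ℤ} (haa : a ≤ a') (h : GradE a H) :
    GradX a' b H := by
  obtain ⟨G, C, hG, hHG, hC⟩ := h.mono haa
  refine ⟨G, |C|, hG, hHG, fun B hB => ?_⟩
  have h1 : {p : Fin (n + 1) → ℤ | Finset.univ.gcd p = 1 ∧ eval p H = 0 ∧ eval p G ≠ 0 ∧ ‖p‖ ≤ B ∧
        |C| * ‖p‖ ^ a' * ((Finset.univ.gcd fun j => eval p (pderiv j H) : ℤ) : ℝ) <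
          ‖fun j => eval p (pderiv j H)‖} = ∅ := by
    rw [Set.eq_empty_iff_forall_notMem]
    rintro p ⟨hp1, hp2, hp3, -, hp5⟩
    have h2 := hC p hp1 hp2 hp3
    have h3 : (0 : ℝ) ≤ ((Finset.univ.gcd fun j => eval p (pderiv j H) : ℤ) : ℝ) := by exact_mod_cast Fin_gcd0 _
    have h4 : C * ‖p‖ ^ a' * ((Finset.univ.gcd fun j => eval p (pderiv j H) : ℤ) : ℝ) ≤
        |C| * ‖p‖ ^ a' * ((Finset.univ.gcd fun j => eval p (pderiv j H) : ℤ) : ℝ) := by
      gcongr
      exact le_abs_self C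
    linarith
  rw [h1, Set.ncard_empty, Nat.cast_zero]
  positivity

/-- **Few exceptions are no exceptions.** If, for every `δ > 0`, there are arbitrarily large `n` such that the
inequality with the exponent `(α + δ) n` holds with at most `C B ^ ((β + δ) n)` exceptions for all irreducible forms
in `n + 1` variables, where `0 ≤ β < 1`, then the weak inequality holds with the constant `α / (1 - β)` and without
exceptions. -/
theorem weak_of_sparse {α β : ℝ} (hα : 0 ≤ α) (hβ : 0 ≤ β) (hβ1 : β < 1) (h : GradS α β) :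
    GradW (α / (1 - β)) := by
  intro δ hδ n₀
  obtain ⟨A, hA⟩ : ∃ A, A = α / (1 - β) := ⟨_, rfl⟩
  have h1β : 0 < 1 - β := by linarith
  have hA0 : 0 ≤ A := hA ▸ div_nonneg hα h1β.le
  have hAα : A * (1 - β) = α := by rw [hA, div_mul_cancel₀ _ h1β.ne']
  rw [← hA]
  -- the choice of `δ'`
  obtain ⟨η, hη⟩ : ∃ η, η = δ * (1 - β) := ⟨_, rfl⟩
  have hη0 : 0 < η := hη ▸ mul_pos hδ h1β
  obtain ⟨δ', hδ'0, hδ'1, hδ'2⟩ : ∃ δ' : ℝ, 0 < δ' ∧ δ' * (1 + A + δ) ≤ η / 2 ∧ δ' ≤ (1 - β) / 2 := by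
    refine ⟨min (η / (2 * (1 + A + δ))) ((1 - β) / 2), ?_, ?_, min_le_right _ _⟩
    · exact lt_min (by positivity) (by positivity)
    · have h1 : min (η / (2 * (1 + A + δ))) ((1 - β) / 2) * (1 + A + δ) ≤ η / (2 * (1 + A + δ)) * (1 + A + δ) :=
        mul_le_mul_of_nonneg_right (min_le_left _ _) (by positivity)
      refine h1.trans (le_of_eq ?_)
      field_simp
  obtain ⟨n₁, hn₁⟩ := exists_nat_ge (max ((A + δ) / (η / 2)) ((n₀ + 1) / ((1 - β) / 2)))
  obtain ⟨N₀, hN₀, hc⟩ := h δ' hδ'0 (max n₁ 1)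
  have hN₀1 : (1 : ℝ) ≤ N₀ := by exact_mod_cast (le_max_right n₁ 1).trans hN₀
  have hN₀n₁ : max ((A + δ) / (η / 2)) ((n₀ + 1) / ((1 - β) / 2)) ≤ (N₀ : ℝ) :=
    hn₁.trans (by exact_mod_cast (le_max_left n₁ 1).trans hN₀)
  have hN₀2 : A + δ ≤ N₀ * (η / 2) := by
    rw [← div_le_iff₀ (by positivity)]
    exact (le_max_left _ _).trans hN₀n₁
  have hN₀3 : (n₀ : ℝ) + 1 ≤ N₀ * ((1 - β) / 2) := by
    rw [← div_le_iff₀ (by positivity)]
    exact (le_max_right _ _).trans hN₀n₁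
  -- the number of superfluous variables
  obtain ⟨r, hr⟩ : ∃ r : ℕ, r = ⌊(β + δ') * N₀⌋₊ + 1 := ⟨_, rfl⟩
  have hb0 : 0 ≤ (β + δ') * (N₀ : ℝ) := by positivity
  have hr1 : (β + δ') * N₀ < r := by
    rw [hr]
    push_cast
    exact Nat.lt_floor_add_one _
  have hr2 : (r : ℝ) ≤ (β + δ') * N₀ + 1 := by
    rw [hr]
    push_cast
    have := Nat.floor_le hb0
    linarith
  have hrN : (r : ℝ) + n₀ ≤ N₀ := by nlinarith
  have hrN' : r + n₀ ≤ N₀ := by exact_mod_cast hrN
  obtain ⟨N, hN⟩ : ∃ N, N₀ = N + r := ⟨N₀ - r, by omega⟩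
  refine ⟨N, by omega, fun e H hH hirr => ?_⟩
  have hNr : (N₀ : ℝ) = N + r := by
    rw [hN]
    push_cast
    ring
  have hexp : (α + δ') * N₀ ≤ (A + δ) * N := by
    have h1 : (N : ℝ) = N₀ - r := by linarith
    rw [h1]
    have h2 : (A + δ) * ((N₀ : ℝ) - ((β + δ') * N₀ + 1)) ≤ (A + δ) * (N₀ - r) :=
      mul_le_mul_of_nonneg_left (by linarith) (by positivity)
    refine le_trans ?_ h2
    have h3 : (A + δ) * ((N₀ : ℝ) - ((β + δ') * N₀ + 1)) - (α + δ') * N₀ =
        (η - δ' * (1 + A + δ)) * N₀ - (A + δ) := by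
      rw [hη, ← hAα]
      ring
    have h4 : η / 2 * (N₀ : ℝ) ≤ (η - δ' * (1 + A + δ)) * N₀ :=
      mul_le_mul_of_nonneg_right (by linarith) (by positivity)
    linarith
  subst hN
  refine (gradE_of_gradX (a := (α + δ') * ((N + r : ℕ) : ℝ)) (b := (β + δ') * ((N + r : ℕ) : ℝ)) (by positivity)
    hr1 hc e H hH hirr).mono hexp

/-- If the inequality holds with the exponents `(α + o(1)) n` and `O(B ^ ((β + o(1)) n))` exceptions, where
`0 ≤ β < 1` and `1 ≤ α + β`, then it holds for all `n` with the exponents `α (n + 1) / (1 - β) - 1 + ε` and without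
exceptions. -/
theorem all_of_sparse {α β : ℝ} (hβ : 0 ≤ β) (hβ1 : β < 1) (hαβ : 1 ≤ α + β) (h : GradS α β) (n e : ℕ)
    (H : MvPolynomial (Fin (n + 1)) ℤ) (ε : ℝ) (hH : H.IsHomogeneous e)
    (hirr : Irreducible (map (Int.castRingHom ℚ) H)) (hε : 0 < ε) :
    GradE (α / (1 - β) * (n + 1) - 1 + ε) H := by
  have h1β : 0 < 1 - β := by linarith
  refine all_of_weak ?_ (weak_of_sparse (by linarith) hβ hβ1 h) n e H ε hH hirr hε
  rw [le_div_iff₀ h1β]
  linarith

/-- The inequality with the exponents `(A + o(1)) n` and `O(B ^ (o(n)))` exceptions is equivalent to the inequality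
with the exponents `A (n + 1) - 1 + ε` and without exceptions. -/
theorem sparse_iff {A : ℝ} (hA : 1 ≤ A) : GradS A 0 ↔
    ∀ (n e : ℕ) (H : MvPolynomial (Fin (n + 1)) ℤ) (ε : ℝ), H.IsHomogeneous e →
      Irreducible (map (Int.castRingHom ℚ) H) → 0 < ε → GradE (A * (n + 1) - 1 + ε) H := by
  constructor
  · intro h n e H ε hH hirr hε
    have h1 := all_of_sparse (α := A) (β := 0) le_rfl zero_lt_one (by linarith) h n e H ε hH hirr hε
    rwa [sub_zero, div_one] at h1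
  · intro h δ hδ n₀
    obtain ⟨n, hn, hc⟩ := (weak_iff hA).2 h δ hδ n₀
    exact ⟨n, hn, fun e H hH hirr => gradX_of_gradE le_rfl (hc e H hH hirr)⟩

/-- **Vojta's conjecture on average.** If the inequality holds with the exponents `(s + o(1)) n` with at most
`C B ^ ((1 - s + o(1)) n)` exceptions, for one `s` in `(0, 1]`, then it holds with the exponents `n + ε` and without
exceptions. -/
theorem gradInt_of_level {s : ℝ} (hs : 0 < s) (hs1 : s ≤ 1) (h : GradS s (1 - s)) : GradInt := by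
  intro n e H ε hH hirr hε
  have h1 := all_of_sparse (α := s) (β := 1 - s) (by linarith) (by linarith) (by linarith) h n e H ε hH hirr hε
  have h2 : s / (1 - (1 - s)) * ((n : ℝ) + 1) - 1 + ε = n + ε := by
    rw [sub_sub_cancel, div_self hs.ne']
    ring
  rw [h2] at h1
  exact h1

end Pool.Agent.Lib.MP_17a322_nt.GE
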