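import Pool.Agent.Lib.MP_17a322_nt.GE.Lin
import Pool.Agent.Lib.MP_17a322_nt.GS.Fin

/-!
The inequality for the gradients with the exponent `m + δ e` for the forms in fewer than `m - δ e` variables, with `m`
arbitrarily large, implies the inequality with the exponent `n + ε`.
-/

namespace Pool.Agent.Lib.MP_17a322_nt.GE

open MvPolynomial

open Pool.Agent.Lib.MP_17a322_nt.GR

/-- The reduction, for the inequality without exceptions for the forms in fewer variables. -/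
theorem gradInt_of_gainE (h : ∀ δ : ℝ, 0 < δ → ∀ m₀ : ℝ, ∃ (n : ℕ) (m : ℝ), m₀ ≤ m ∧ m ≤ n ∧
    ∀ N r e : ℕ, 1 ≤ r → n = N + r → n - m + δ * e < r → ∀ H : MvPolynomial (Fin (N + 1)) ℤ,
      H.IsHomogeneous e → Irreducible (map (Int.castRingHom ℚ) H) → GradE (m + δ * e) H) : GradInt := by
  intro n e H ε hH hirr hε
  -- the choice of `δ` and of the dimension
  obtain ⟨δ, hδ⟩ : ∃ δ : ℝ, δ = ε / (16 * (e + 1)) := ⟨_, rfl⟩
  have hδ0 : 0 < δ := by
    rw [hδ]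
    positivity
  have heR : (0 : ℝ) ≤ e := Nat.cast_nonneg e
  have hδe : δ * e ≤ ε / 16 := by
    rw [hδ, div_mul_eq_mul_div, div_le_div_iff₀ (by positivity) (by norm_num)]
    nlinarith
  have hδe0 : 0 ≤ δ * e := mul_nonneg hδ0.le heR
  obtain ⟨A, hA⟩ : ∃ A : ℝ, A = n + 1 + δ * e := ⟨_, rfl⟩
  have hnR0 : (0 : ℝ) ≤ n := Nat.cast_nonneg n
  have hA1 : 1 ≤ A := by
    rw [hA]
    linarith
  have hA0 : 0 < A := by linarith
  obtain ⟨k₀, hk₀, hk₁⟩ : ∃ k₀ : ℕ, 1 ≤ k₀ ∧ 4 * ((n : ℝ) + 1) ≤ k₀ * (ε / 2) := by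
    obtain ⟨j, hj⟩ := exists_nat_ge (4 * ((n : ℝ) + 1) / (ε / 2))
    refine ⟨max 1 j, le_max_left _ _, ?_⟩
    rw [div_le_iff₀ (by positivity)] at hj
    refine hj.trans (mul_le_mul_of_nonneg_right ?_ (by positivity))
    exact_mod_cast le_max_right _ _
  obtain ⟨N₀, m, hm₀, hmN, hE⟩ := h δ hδ0 (A * (k₀ + 3))
  have hm0 : 0 ≤ m := le_trans (by positivity) hm₀
  obtain ⟨q, hq⟩ : ∃ q : ℕ, q = ⌊m / A⌋₊ := ⟨_, rfl⟩
  have hsN : 0 ≤ m / A := by positivity
  have hq1 : A * q ≤ m := by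
    have h1 := Nat.floor_le hsN
    rw [← hq, le_div_iff₀ hA0] at h1
    linarith
  have hq2 : m < A * (q + 1) := by
    have h1 := Nat.lt_floor_add_one (m / A)
    rw [← hq, div_lt_iff₀ hA0] at h1
    linarith
  have hq3 : k₀ + 3 ≤ q := by
    rw [hq]
    apply Nat.le_floor
    rw [le_div_iff₀ hA0]
    push_cast
    nlinarith
  obtain ⟨k, hk⟩ : ∃ k : ℕ, q = k + 3 := ⟨q - 3, by omega⟩
  have hkk : k₀ ≤ k := by omega
  have hk1 : 0 < k := by omega
  have hkR : (1 : ℝ) ≤ k := by exact_mod_cast hk1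
  have hqR : (q : ℝ) = k + 3 := by
    rw [hk]
    push_cast
    ring
  rw [hqR] at hq1 hq2
  -- the superfluous variables
  obtain ⟨r, hr⟩ : ∃ r : ℕ, r = ⌊N₀ - m + δ * e * (k + 1)⌋₊ + 1 := ⟨_, rfl⟩
  have hb0 : 0 ≤ (N₀ : ℝ) - m + δ * e * (k + 1) := by
    have h1 : 0 ≤ δ * e * (k + 1) := by positivity
    linarith
  have hr1 : (N₀ : ℝ) - m + δ * e * (k + 1) < r := by
    rw [hr]
    push_cast
    exact Nat.lt_floor_add_one _
  have hr2 : (r : ℝ) ≤ N₀ - m + δ * e * (k + 1) + 1 := by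
    rw [hr]
    push_cast
    have := Nat.floor_le hb0
    linarith
  have hrN : (1 + (n + 1) * (k + 1) : ℝ) + r ≤ N₀ := by
    have h1 : A * (k + 3) = (n + 1) * (k + 1) + δ * e * (k + 1) + 2 * A := by
      rw [hA]
      ring
    nlinarith
  have hrN' : (1 + (n + 1) * (k + 1)) + r ≤ N₀ := by exact_mod_cast hrN
  obtain ⟨t, ht⟩ : ∃ t : ℕ, N₀ = (t + (1 + (n + 1) * (k + 1))) + r := ⟨N₀ - (1 + (n + 1) * (k + 1)) - r, by omega⟩
  obtain ⟨N, hN⟩ : ∃ N : ℕ, N = t + (1 + (n + 1) * (k + 1)) := ⟨_, rfl⟩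
  rw [← hN] at ht
  have hcard : Fintype.card (Fin t ⊕ Vr n k) = N := by
    rw [Fintype.card_sum, Fintype.card_fin, Fintype.card_option, Fintype.card_prod, Fintype.card_fin, Fintype.card_fin,
      hN]
    ring
  -- the degree
  obtain ⟨d, hd⟩ : ∃ d : ℕ,
      d = (map (Int.castRingHom ℚ) (rename (Sum.inr : Vr n k → Fin t ⊕ Vr n k) (ex k H))).totalDegree := ⟨_, rfl⟩
  have hde : d ≤ e * (k + 1) := by
    rw [hd, map_rename, map_ex]
    exact (totalDegree_rename_le _ _).trans (deg_ex _ (hH.map _))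
  have hdR : (d : ℝ) ≤ e * (k + 1) := by exact_mod_cast hde
  have hδd : δ * d ≤ δ * e * (k + 1) := by
    rw [mul_assoc]
    exact mul_le_mul_of_nonneg_left hdR hδ0.le
  have hδd0 : 0 ≤ δ * d := by positivity
  obtain ⟨κ, hκ⟩ : ∃ κ : ℝ, κ = m + δ * d := ⟨_, rfl⟩
  have hκk : (k : ℝ) ≤ κ := by
    rw [hκ]
    nlinarith
  have hκ0 : 0 ≤ κ := (Nat.cast_nonneg k).trans hκk
  have hexp : κ - k ≤ (n + ε) * k := by
    rw [hκ]
    have h1 : A * (k + 4) + δ * e * (k + 1) - k = n * k + δ * e * (2 * k + 5) + 4 * (n + 1) := by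
      rw [hA]
      ring
    have h2 : δ * e * (2 * k + 5) ≤ ε / 2 * k := by
      calc δ * e * (2 * k + 5) ≤ ε / 16 * (2 * k + 5) := mul_le_mul_of_nonneg_right hδe (by positivity)
        _ ≤ ε / 2 * k := by nlinarith
    have h4 : (k₀ : ℝ) * (ε / 2) ≤ k * (ε / 2) :=
      mul_le_mul_of_nonneg_right (by exact_mod_cast hkk) (by positivity)
    nlinarith
  have hirr' : Irreducible (map (Int.castRingHom ℚ) (rename (Sum.inr : Vr n k → Fin t ⊕ Vr n k) (ex k H))) := by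
    rw [map_rename, map_ex]
    exact pad_irreducible (ex_irreducible k hirr)
  have hE' : ∀ H' : MvPolynomial (Fin (N + 1)) ℤ, H'.IsHomogeneous d → Irreducible (map (Int.castRingHom ℚ) H') →
      GradE κ H' := by
    intro H' h1 h2
    rw [hκ]
    exact hE N r d (by rw [hr]; omega) ht (by linarith) H' h1 h2
  exact grad_of_digits hk1 hκk hexp H hH hirr
    (affE_pad hκ0 (ex k H) (aff_of_grad_deg N κ hcard (rename Sum.inr (ex k H)) hirr' fun H' h1 h2 => by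
      rw [← hd] at h1
      exact hE' H' h1 h2))

end Pool.Agent.Lib.MP_17a322_nt.GE
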