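import Pool.Agent.Lib.MP_17a322_nt.GS.Fin
import Pool.Agent.Lib.MP_17a322_nt.GR.Fin

/-!
The inequality for the gradients with a fixed error constant and few exceptions, and Vojta's conjecture for `D = 0`
and rational varieties.
-/

universe v

namespace Pool.Agent.Lib.MP_17a322_nt.GE

open MvPolynomial

open Pool.Agent.Lib.MP_17a322_nt.GR
open Pool.Agent.Lib.MP_17a322_nt.RAT (VojtaGaussRat)

private theorem Rat_one {m : ℕ} {p : Fin m → ℤ} (hp : Finset.univ.gcd p = 1) : 1 ≤ ‖p‖ := by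
  have hpne : p ≠ 0 := by
    rintro rfl
    rw [Finset.gcd_eq_zero_iff.2 (by simp)] at hp
    exact zero_ne_one hp
  obtain ⟨i, hi⟩ := Function.ne_iff.1 hpne
  have h1 := norm_le_pi_norm p i
  have h2 : (1 : ℝ) ≤ ‖p i‖ := by
    rw [Int.norm_eq_abs]
    exact_mod_cast Int.one_le_abs hi
  exact h2.trans h1

private theorem Rat_gcd0 {m : ℕ} (g : Fin m → ℤ) : 0 ≤ Finset.univ.gcd g := by
  have h1 := Int.abs_eq_normalize (Finset.univ.gcd g)
  rw [Finset.normalize_gcd] at h1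
  rw [← h1]
  exact abs_nonneg _

private theorem Rat_ball {m : ℕ} (B : ℝ) : {p : Fin m → ℤ | ‖p‖ ≤ B}.Finite := by
  have h1 : {p : Fin m → ℤ | ‖p‖ ≤ B} = Metric.closedBall 0 B := by
    ext p
    simp
  rw [h1]
  exact (isCompact_closedBall (0 : Fin m → ℤ) B).finite_of_discrete

/-- Both exponents may be enlarged. -/
theorem GradX.mono {n : ℕ} {a a' b b' : ℝ} {H : MvPolynomial (Fin (n + 1)) ℤ} (haa : a ≤ a') (hbb : b ≤ b')
    (h : GradX a b H) : GradX a' b' H := by
  obtain ⟨G, C, hG, hHG, hC⟩ := h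
  refine ⟨G, |C|, hG, hHG, fun B hB => ?_⟩
  have h1 : {p : Fin (n + 1) → ℤ | Finset.univ.gcd p = 1 ∧ eval p H = 0 ∧ eval p G ≠ 0 ∧ ‖p‖ ≤ B ∧
        |C| * ‖p‖ ^ a' * ((Finset.univ.gcd fun j => eval p (pderiv j H) : ℤ) : ℝ) <
          ‖fun j => eval p (pderiv j H)‖}.ncard ≤
      {p : Fin (n + 1) → ℤ | Finset.univ.gcd p = 1 ∧ eval p H = 0 ∧ eval p G ≠ 0 ∧ ‖p‖ ≤ B ∧
        C * ‖p‖ ^ a * ((Finset.univ.gcd fun j => eval p (pderiv j H) : ℤ) : ℝ) <
          ‖fun j => eval p (pderiv j H)‖}.ncard := by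
    refine Set.ncard_le_ncard ?_ ((Rat_ball (m := n + 1) B).subset fun p hp => hp.2.2.2.1)
    rintro p ⟨hp1, hp2, hp3, hp4, hp5⟩
    refine ⟨hp1, hp2, hp3, hp4, lt_of_le_of_lt ?_ hp5⟩
    have h3 : (0 : ℝ) ≤ ((Finset.univ.gcd fun j => eval p (pderiv j H) : ℤ) : ℝ) := by exact_mod_cast Rat_gcd0 _
    have h4 : ‖p‖ ^ a ≤ ‖p‖ ^ a' := Real.rpow_le_rpow_of_exponent_le (Rat_one hp1) haa
    have h5 : (0 : ℝ) ≤ ‖p‖ ^ a := by positivity
    calc C * ‖p‖ ^ a * ((Finset.univ.gcd fun j => eval p (pderiv j H) : ℤ) : ℝ) ≤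
          |C| * ‖p‖ ^ a * ((Finset.univ.gcd fun j => eval p (pderiv j H) : ℤ) : ℝ) := by
          gcongr
          exact le_abs_self C
      _ ≤ |C| * ‖p‖ ^ a' * ((Finset.univ.gcd fun j => eval p (pderiv j H) : ℤ) : ℝ) := by gcongr
  have h2 : B ^ b ≤ B ^ b' := Real.rpow_le_rpow_of_exponent_le hB hbb
  have h3 : (0 : ℝ) ≤ B ^ b := by positivity
  calc _ ≤ _ := Nat.cast_le.2 h1
    _ ≤ C * B ^ b := hC B hB
    _ ≤ |C| * B ^ b := by
      gcongr
      exact le_abs_self C
    _ ≤ |C| * B ^ b' := by gcongr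

/-- A fixed error constant and a fixed power of exceptions are allowed. -/
theorem gradS_of_const {c : ℝ} (hc : ∀ (n e : ℕ) (H : MvPolynomial (Fin (n + 1)) ℤ), H.IsHomogeneous e →
    Irreducible (map (Int.castRingHom ℚ) H) → GradX (n + c) c H) : GradS 1 0 := by
  intro δ hδ n₀
  obtain ⟨n₁, hn₁⟩ := exists_nat_ge (c / δ)
  have h1 : c ≤ δ * ((max n₀ n₁ : ℕ) : ℝ) := by
    have h2 : c / δ ≤ ((max n₀ n₁ : ℕ) : ℝ) := hn₁.trans (by exact_mod_cast le_max_right n₀ n₁)
    rw [div_le_iff₀ hδ] at h2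
    linarith
  refine ⟨max n₀ n₁, le_max_left _ _, fun e H hH hirr => (hc _ e H hH hirr).mono ?_ ?_⟩
  · linarith
  · linarith

/-- **Vojta's conjecture for almost all points and with a fixed error constant.** For every constant `c > 0`: the
inequality `|∇H(p)| ≤ C |p| ^ (n + c) gcd(∇H(p))` for all but `C B ^ c` of the primitive integral zeros `p`,
`|p| ≤ B`, of every irreducible form `H` in `n + 1` variables, off a proper closed subset, for all `n`, is equivalent
to Vojta's conjecture for `D = 0` and rational varieties over any number field. -/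
theorem const_iff_rat (L : Type v) [Field L] [NumberField L] {c : ℝ} (hc : 0 < c) :
    (∀ (n e : ℕ) (H : MvPolynomial (Fin (n + 1)) ℤ), H.IsHomogeneous e →
      Irreducible (map (Int.castRingHom ℚ) H) → GradX (n + c) c H) ↔ VojtaGaussRat L := by
  rw [← grad_iff_rat L]
  constructor
  · intro h n e H ε hH hirr hε
    have h1 := (sparse_iff (A := 1) le_rfl).1 (gradS_of_const h) n e H ε hH hirr hε
    have h2 : (1 : ℝ) * ((n : ℝ) + 1) - 1 + ε = n + ε := by ring
    rw [h2] at h1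
    exact h1
  · intro h n e H hH hirr
    exact gradX_of_gradE le_rfl (h n e H c hH hirr hc)

/-- **One level.** For one `s` in `(0, 1]`: if the number of the zeros `p`, `|p| ≤ B`, off a proper closed subset, with
`|∇H(p)| > C |p| ^ ((s + δ) n) gcd(∇H(p))` is `O(B ^ ((1 - s + δ) n))` for all `δ > 0`, arbitrarily large `n` and all
irreducible forms `H` in `n + 1` variables, then Vojta's conjecture for `D = 0` and rational varieties holds over any
number field. -/
theorem rat_of_level (L : Type v) [Field L] [NumberField L] {s : ℝ} (hs : 0 < s) (hs1 : s ≤ 1)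
    (h : GradS s (1 - s)) : VojtaGaussRat L :=
  (grad_iff_rat L).1 (gradInt_of_level hs hs1 h)

end Pool.Agent.Lib.MP_17a322_nt.GE
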