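import Pool.Agent.Lib.MP_17a322_nt.GS.Defs

/-!
The inequality for the gradients at all but few points, for the forms in more variables, implies the inequality at
all points, for the forms in fewer variables.
-/

namespace Pool.Agent.Lib.MP_17a322_nt.GE

open MvPolynomial

/-- the form in one more variable -/
theorem Sp_succ {K : Type*} [Field K] {m : ℕ} (h : MvPolynomial (Fin m) K) :
    finSuccEquiv K m (rename Fin.succ h) = Polynomial.C h := by
  have h1 : ((finSuccEquiv K m).toAlgHom.comp (rename Fin.succ) : MvPolynomial (Fin m) K →ₐ[K] _) =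
      (Algebra.ofId (MvPolynomial (Fin m) K) (Polynomial (MvPolynomial (Fin m) K))).restrictScalars K := by
    refine algHom_ext fun i => ?_
    simp only [AlgHom.comp_apply, rename_X, AlgEquiv.coe_toAlgHom, finSuccEquiv_X_succ]
    rfl
  exact DFunLike.congr_fun h1 h

theorem Sp_irr {K : Type*} [Field K] {m : ℕ} {h : MvPolynomial (Fin m) K} (hh : Irreducible h) :
    Irreducible (rename (Fin.succ : Fin m → Fin (m + 1)) h) := by
  rw [UniqueFactorizationMonoid.irreducible_iff_prime] at hh ⊢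
  rw [← MulEquiv.prime_iff (finSuccEquiv K m)]
  rw [Sp_succ]
  exact Polynomial.prime_C_iff.2 hh

/-- The bad points of norm `B`. -/
private def Bad {n : ℕ} (a C : ℝ) (H G : MvPolynomial (Fin (n + 1)) ℤ) (B : ℕ) : Set (Fin (n + 1) → ℤ) :=
  {p | Finset.univ.gcd p = 1 ∧ eval p H = 0 ∧ eval p G ≠ 0 ∧ ‖p‖ = B ∧
    C * ‖p‖ ^ a * ((Finset.univ.gcd fun j => eval p (pderiv j H) : ℤ) : ℝ) < ‖fun j => eval p (pderiv j H)‖}

private def GradD {n : ℕ} (a b : ℝ) (H : MvPolynomial (Fin (n + 1)) ℤ) : Prop :=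
  ∃ (G : MvPolynomial (Fin (n + 1)) ℤ) (C : ℝ), (∃ e', G.IsHomogeneous e') ∧
    ¬ map (Int.castRingHom ℚ) H ∣ map (Int.castRingHom ℚ) G ∧
    ∀ B : ℕ, 1 ≤ B → (((Bad a C H G B).ncard : ℕ) : ℝ) ≤ C * (B : ℝ) ^ b

theorem Sp_ball {m : ℕ} (B : ℝ) : {p : Fin m → ℤ | ‖p‖ ≤ B}.Finite := by
  have h1 : {p : Fin m → ℤ | ‖p‖ ≤ B} = Metric.closedBall 0 B := by
    ext p
    simp
  rw [h1]
  exact (isCompact_closedBall (0 : Fin m → ℤ) B).finite_of_discrete

private theorem Sp_finite {n : ℕ} (a C : ℝ) (H G : MvPolynomial (Fin (n + 1)) ℤ) (B : ℕ) :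
    (Bad a C H G B).Finite :=
  (Sp_ball (B : ℝ)).subset fun p hp => by
    have := hp.2.2.2.1
    exact this.le

theorem Sp_norm {m : ℕ} (p : Fin (m + 1) → ℤ) : ∃ B : ℕ, ‖p‖ = B := by
  obtain ⟨i, -, hi⟩ := Finset.exists_mem_eq_sup Finset.univ ⟨0, Finset.mem_univ _⟩ fun i => (p i).natAbs
  refine ⟨(p i).natAbs, le_antisymm ?_ ?_⟩
  · rw [pi_norm_le_iff_of_nonneg (by positivity)]
    intro j
    have h1 : (p j).natAbs ≤ (p i).natAbs := by
      rw [← hi]
      exact Finset.le_sup (f := fun i => (p i).natAbs) (Finset.mem_univ j)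
    rw [Int.norm_eq_abs, ← Int.cast_abs, ← Nat.cast_natAbs]
    exact Nat.cast_le.2 h1
  · have h1 := norm_le_pi_norm p i
    rwa [Int.norm_eq_abs, ← Int.cast_abs, ← Nat.cast_natAbs] at h1

theorem Sp_gcd0 {m : ℕ} (g : Fin m → ℤ) : 0 ≤ Finset.univ.gcd g := by
  have h1 := Int.abs_eq_normalize (Finset.univ.gcd g)
  rw [Finset.normalize_gcd] at h1
  rw [← h1]
  exact abs_nonneg _

theorem Sp_one {m : ℕ} {p : Fin m → ℤ} (hp : Finset.univ.gcd p = 1) : 1 ≤ ‖p‖ := by
  have hpne : p ≠ 0 := by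
    rintro rfl
    rw [Finset.gcd_eq_zero_iff.2 (by simp)] at hp
    exact zero_ne_one hp
  obtain ⟨i, hi⟩ := Function.ne_iff.1 hpne
  have h1 := norm_le_pi_norm p i
  have h2 : (1 : ℝ) ≤ ‖p i‖ := by
    rw [Int.norm_eq_abs]
    exact_mod_cast Int.one_le_abs hi
  exact h2.trans h1

/-- The points of bounded height are absorbed by the constant. -/
theorem Sp_absorb {n : ℕ} (H : MvPolynomial (Fin (n + 1)) ℤ) {a : ℝ} (ha : 0 ≤ a) (D : ℝ) :
    ∃ C₁ : ℝ, 0 ≤ C₁ ∧ ∀ C : ℝ, C₁ ≤ C → ∀ p : Fin (n + 1) → ℤ, Finset.univ.gcd p = 1 → ‖p‖ ≤ D →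
      ‖fun j => eval p (pderiv j H)‖ ≤
        C * ‖p‖ ^ a * ((Finset.univ.gcd fun j => eval p (pderiv j H) : ℤ) : ℝ) := by
  obtain ⟨M, hM⟩ := ((Sp_ball (m := n + 1) D).image fun p => ‖fun j => eval p (pderiv j H)‖).bddAbove
  refine ⟨max M 0, le_max_right _ _, fun C hC p hp hpD => ?_⟩
  have hC0 : 0 ≤ C := (le_max_right M 0).trans hC
  obtain ⟨g, hg⟩ : ∃ g : Fin (n + 1) → ℤ, g = fun j => eval p (pderiv j H) := ⟨_, rfl⟩
  have hgM : ‖g‖ ≤ M := by
    rw [hg]
    exact hM ⟨p, hpD, rfl⟩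
  rw [← hg]
  by_cases hg0 : g = 0
  · rw [hg0, norm_zero]
    have h1 : (0 : ℝ) ≤ ((Finset.univ.gcd (0 : Fin (n + 1) → ℤ) : ℤ) : ℝ) := by exact_mod_cast Sp_gcd0 _
    positivity
  have hgcd1 : 0 < Finset.univ.gcd g := by
    refine lt_of_le_of_ne (Sp_gcd0 g) fun h1 => hg0 ?_
    funext j
    exact Finset.gcd_eq_zero_iff.1 h1.symm j (Finset.mem_univ j)
  have h1 : (1 : ℝ) ≤ ((Finset.univ.gcd g : ℤ) : ℝ) := by exact_mod_cast hgcd1
  have h2 : (1 : ℝ) ≤ ‖p‖ ^ a := Real.one_le_rpow (Sp_one hp) ha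
  have h3 : C * 1 * 1 ≤ C * ‖p‖ ^ a * ((Finset.univ.gcd g : ℤ) : ℝ) := by gcongr
  have h4 : M ≤ C := (le_max_left M 0).trans hC
  linarith

/-- The values of a polynomial in one more variable at the integers in an interval. -/
theorem Sp_count {m : ℕ} (G : MvPolynomial (Fin (m + 1)) ℤ) (p : Fin m → ℤ) (k B : ℕ)
    (hk : eval p ((finSuccEquiv ℤ m G).coeff k) ≠ 0) (hB : (finSuccEquiv ℤ m G).natDegree < B) :
    B ≤ ((Finset.Icc (-(B : ℤ)) B).filter fun t => eval (Fin.cons t p : Fin (m + 1) → ℤ) G ≠ 0).card := by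
  obtain ⟨Q, hQ⟩ : ∃ Q, Q = Polynomial.map (eval p) (finSuccEquiv ℤ m G) := ⟨_, rfl⟩
  have hev : ∀ t : ℤ, eval (Fin.cons t p : Fin (m + 1) → ℤ) G = Q.eval t := fun t => by
    rw [hQ]
    exact eval_eq_eval_mv_eval' p t G
  have hQ0 : Q ≠ 0 := by
    intro h0
    apply hk
    have h1 : Q.coeff k = 0 := by rw [h0, Polynomial.coeff_zero]
    rwa [hQ, Polynomial.coeff_map] at h1
  have h1 : ((Finset.Icc (-(B : ℤ)) B).filter fun t => ¬ eval (Fin.cons t p : Fin (m + 1) → ℤ) G ≠ 0).card ≤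
      (finSuccEquiv ℤ m G).natDegree := by
    refine le_trans (Finset.card_le_card (t := Q.roots.toFinset) ?_) ?_
    · intro t ht
      rw [Finset.mem_filter, not_not, hev] at ht
      rw [Multiset.mem_toFinset, Polynomial.mem_roots hQ0]
      exact ht.2
    · refine (Multiset.toFinset_card_le _).trans ((Polynomial.card_roots' Q).trans ?_)
      rw [hQ]
      exact Polynomial.natDegree_map_le
  have h2 := Finset.card_filter_add_card_filter_not (s := Finset.Icc (-(B : ℤ)) B)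
    (fun t => eval (Fin.cons t p : Fin (m + 1) → ℤ) G ≠ 0)
  have h3 : (Finset.Icc (-(B : ℤ)) B).card = 2 * B + 1 := by
    rw [Int.card_Icc]
    omega
  omega

/-- One variable less. -/
private theorem Sp_step {n e : ℕ} {a b : ℝ} (ha : 0 ≤ a)
    (hc : ∀ H : MvPolynomial (Fin (n + 1 + 1)) ℤ, H.IsHomogeneous e →
      Irreducible (map (Int.castRingHom ℚ) H) → GradD a b H)
    (H : MvPolynomial (Fin (n + 1)) ℤ) (hH : H.IsHomogeneous e)
    (hirr : Irreducible (map (Int.castRingHom ℚ) H)) : GradD a (b - 1) H := by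
  obtain ⟨h, hh⟩ : ∃ h, h = map (Int.castRingHom ℚ) H := ⟨_, rfl⟩
  rw [← hh] at hirr
  have hmap : map (Int.castRingHom ℚ) (rename Fin.succ H) = rename Fin.succ h := by rw [hh, map_rename]
  obtain ⟨G', C₀, ⟨e', hG'⟩, hG, hC⟩ := hc (rename Fin.succ H) (hH.rename_isHomogeneous) (by
    rw [hmap]
    exact Sp_irr hirr)
  rw [hmap] at hG
  obtain ⟨P, hP⟩ : ∃ P, P = finSuccEquiv ℤ (n + 1) G' := ⟨_, rfl⟩
  have hcoeff : ∀ k, (finSuccEquiv ℚ (n + 1) (map (Int.castRingHom ℚ) G')).coeff k =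
      map (Int.castRingHom ℚ) (P.coeff k) := by
    intro k
    ext d
    rw [finSuccEquiv_coeff_coeff, coeff_map, coeff_map, hP, finSuccEquiv_coeff_coeff]
  obtain ⟨k, hk⟩ : ∃ k, ¬ h ∣ map (Int.castRingHom ℚ) (P.coeff k) := by
    by_contra! hc
    apply hG
    have h1 := (Polynomial.C_dvd_iff_dvd_coeff h (finSuccEquiv ℚ (n + 1) (map (Int.castRingHom ℚ) G'))).2
      (fun k => by
        rw [hcoeff]
        exact hc k)
    rw [← Sp_succ] at h1
    exact (map_dvd_iff (finSuccEquiv ℚ (n + 1))).1 h1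
  have hke : k ≤ e' := by
    by_contra hke
    apply hk
    have h1 : P.coeff k = 0 := by
      ext d
      rw [hP, finSuccEquiv_coeff_coeff, coeff_zero]
      refine hG'.coeff_eq_zero ?_
      rw [Finsupp.degree_eq_sum, Fin.sum_univ_succ, Finsupp.cons_zero]
      omega
    rw [h1, map_zero]
    exact dvd_zero h
  have hGhom : (P.coeff k).IsHomogeneous (e' - k) := by
    rw [hP]
    exact hG'.finSuccEquiv_coeff_isHomogeneous k (e' - k) (by omega)
  obtain ⟨C₁, hC₁0, hC₁⟩ := Sp_absorb H ha (P.natDegree : ℝ)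
  obtain ⟨C, hCdef⟩ : ∃ C, C = max |C₀| C₁ := ⟨_, rfl⟩
  have hC0C : C₀ ≤ C := (le_abs_self C₀).trans (hCdef ▸ le_max_left _ _)
  have hC1C : C₁ ≤ C := hCdef ▸ le_max_right _ _
  have hC0 : 0 ≤ C := hC₁0.trans hC1C
  refine ⟨P.coeff k, C, ⟨_, hGhom⟩, by rwa [← hh], fun B hB => ?_⟩
  have hBpos : (0 : ℝ) < B := by exact_mod_cast hB
  rcases Nat.lt_or_ge P.natDegree B with hBD | hBD
  · -- the points in one more variable
    obtain ⟨S, hS⟩ : ∃ S : Finset (Fin (n + 1) → ℤ), S = (Sp_finite a C H (P.coeff k) B).toFinset := ⟨_, rfl⟩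
    obtain ⟨T, hT⟩ : ∃ T : (Fin (n + 1) → ℤ) → Finset ℤ, T = fun p => (Finset.Icc (-(B : ℤ)) B).filter fun t =>
      eval (Fin.cons t p : Fin (n + 1 + 1) → ℤ) G' ≠ 0 := ⟨_, rfl⟩
    have hcard : S.card * B ≤ (S.sigma T).card := by
      rw [Finset.card_sigma, ← smul_eq_mul]
      refine Finset.card_nsmul_le_sum S _ B fun p hp => ?_
      rw [hS, Set.Finite.mem_toFinset] at hp
      rw [hT]
      exact Sp_count G' p k B (by
        rw [← hP]
        exact hp.2.2.1) (by
        rw [← hP]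
        exact hBD)
    have hinj : (S.sigma T).card ≤ (Bad a C₀ (rename Fin.succ H) G' B).ncard := by
      rw [Set.ncard_eq_toFinset_card _ (Sp_finite a C₀ (rename Fin.succ H) G' B)]
      refine Finset.card_le_card_of_injOn (fun x => (Fin.cons x.2 x.1 : Fin (n + 1 + 1) → ℤ)) ?_ ?_
      · rintro ⟨p, t⟩ hx
        rw [Finset.mem_coe, Finset.mem_sigma] at hx
        obtain ⟨hp, ht⟩ := hx
        simp only at hp ht
        rw [hS, Set.Finite.mem_toFinset] at hp
        rw [hT, Finset.mem_filter, Finset.mem_Icc] at ht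
        obtain ⟨hp1, hp2, hp3, hp4, hp5⟩ := hp
        obtain ⟨⟨ht1, ht2⟩, ht3⟩ := ht
        rw [Finset.mem_coe, Set.Finite.mem_toFinset]
        obtain ⟨q, hq⟩ : ∃ q : Fin (n + 1 + 1) → ℤ, q = Fin.cons t p := ⟨_, rfl⟩
        have hq0 : q 0 = t := by rw [hq, Fin.cons_zero]
        have hqs : ∀ i, q (Fin.succ i) = p i := fun i => by rw [hq, Fin.cons_succ]
        simp only
        rw [← hq]
        have hq1 : Finset.univ.gcd q = 1 := by
          have h1 : Finset.univ.gcd q ∣ 1 := by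
            rw [← hp1]
            refine Finset.dvd_gcd fun i _ => ?_
            rw [← hqs]
            exact Finset.gcd_dvd (Finset.mem_univ _)
          exact Int.eq_one_of_dvd_one (Sp_gcd0 q) h1
        have hqe : ∀ f : MvPolynomial (Fin (n + 1)) ℤ, eval q (rename Fin.succ f) = eval p f := by
          intro f
          rw [eval_rename]
          congr 2
          funext i
          exact hqs i
        have hqn : ‖q‖ = B := by
          refine le_antisymm ?_ ?_
          · rw [pi_norm_le_iff_of_nonneg (by positivity)]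
            intro i
            refine Fin.cases ?_ (fun i => ?_) i
            · rw [hq0, Int.norm_eq_abs, ← Int.cast_abs]
              have h1 : |t| ≤ (B : ℤ) := abs_le.2 ⟨ht1, ht2⟩
              exact_mod_cast h1
            · rw [hqs, ← hp4]
              exact norm_le_pi_norm p i
          · rw [← hp4, pi_norm_le_iff_of_nonneg (norm_nonneg _)]
            intro i
            rw [← hqs]
            exact norm_le_pi_norm q _
        obtain ⟨g, hg⟩ : ∃ g : Fin (n + 1) → ℤ, g = fun j => eval p (pderiv j H) := ⟨_, rfl⟩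
        rw [← hg] at hp5
        have hgs : ∀ i, eval q (pderiv (Fin.succ i) (rename Fin.succ H)) = g i := by
          intro i
          rw [pderiv_rename (Fin.succ_injective _), hqe, hg]
        have hgr : (0 : ℝ) ≤ ((Finset.univ.gcd g : ℤ) : ℝ) := by exact_mod_cast Sp_gcd0 g
        have hg0 : g ≠ 0 := by
          intro h0
          rw [h0, norm_zero] at hp5
          rw [h0] at hgr
          have h2 : 0 ≤ C * ‖p‖ ^ a * ((Finset.univ.gcd (0 : Fin (n + 1) → ℤ) : ℤ) : ℝ) := by positivity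
          linarith
        have hgcd1 : 0 < Finset.univ.gcd g := by
          refine lt_of_le_of_ne (Sp_gcd0 g) fun h1 => hg0 ?_
          funext j
          exact Finset.gcd_eq_zero_iff.1 h1.symm j (Finset.mem_univ j)
        have hle : ((Finset.univ.gcd fun j => eval q (pderiv j (rename Fin.succ H)) : ℤ) : ℝ) ≤
            (Finset.univ.gcd g : ℤ) := by
          have h2 : (Finset.univ.gcd fun j => eval q (pderiv j (rename Fin.succ H)) : ℤ) ∣ Finset.univ.gcd g := by
            refine Finset.dvd_gcd fun i _ => ?_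
            have h3 := Finset.gcd_dvd (s := Finset.univ) (f := fun j => eval q (pderiv j (rename Fin.succ H)))
              (Finset.mem_univ (Fin.succ i))
            rwa [hgs] at h3
          exact_mod_cast Int.le_of_dvd hgcd1 h2
        have hle0 : (0 : ℝ) ≤ ((Finset.univ.gcd fun j => eval q (pderiv j (rename Fin.succ H)) : ℤ) : ℝ) := by
          exact_mod_cast Sp_gcd0 _
        have hlow : ‖g‖ ≤ ‖fun j => eval q (pderiv j (rename Fin.succ H))‖ := by
          rw [pi_norm_le_iff_of_nonneg (norm_nonneg _)]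
          intro i
          have h2 := norm_le_pi_norm (fun j => eval q (pderiv j (rename Fin.succ H))) (Fin.succ i)
          rwa [hgs] at h2
        refine ⟨hq1, by rw [hqe, hp2], by rw [hq]; exact ht3, hqn, ?_⟩
        refine lt_of_le_of_lt ?_ (hp5.trans_le hlow)
        rw [hqn, hp4]
        have h5 : (0 : ℝ) ≤ (B : ℝ) ^ a := by positivity
        calc C₀ * (B : ℝ) ^ a * ((Finset.univ.gcd fun j => eval q (pderiv j (rename Fin.succ H)) : ℤ) : ℝ) ≤
              C * (B : ℝ) ^ a * ((Finset.univ.gcd fun j => eval q (pderiv j (rename Fin.succ H)) : ℤ) : ℝ) := by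
              gcongr
          _ ≤ C * (B : ℝ) ^ a * ((Finset.univ.gcd g : ℤ) : ℝ) := by gcongr
      · rintro ⟨p, t⟩ - ⟨p', t'⟩ - hx
        simp only at hx
        obtain ⟨h1, h2⟩ := Fin.cons_injective2 hx
        rw [h1, h2]
    have h1 := hC B hB
    have h2 : ((S.card * B : ℕ) : ℝ) ≤ C * (B : ℝ) ^ b := by
      calc ((S.card * B : ℕ) : ℝ) ≤ (((Bad a C₀ (rename Fin.succ H) G' B).ncard : ℕ) : ℝ) := by
            exact_mod_cast hcard.trans hinj
        _ ≤ C₀ * (B : ℝ) ^ b := h1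
        _ ≤ C * (B : ℝ) ^ b := by gcongr
    rw [Set.ncard_eq_toFinset_card _ (Sp_finite a C H (P.coeff k) B), ← hS, Real.rpow_sub_one hBpos.ne',
      ← mul_div_assoc, le_div_iff₀ hBpos]
    push_cast at h2
    exact h2
  · -- small heights
    have h1 : Bad a C H (P.coeff k) B = ∅ := by
      rw [Set.eq_empty_iff_forall_notMem]
      rintro p ⟨hp1, -, -, hp4, hp5⟩
      have h2 := hC₁ C hC1C p hp1 (by
        rw [hp4]
        exact_mod_cast hBD)
      linarith
    rw [h1, Set.ncard_empty, Nat.cast_zero]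
    positivity

private theorem Sp_iter {N e : ℕ} {a : ℝ} (ha : 0 ≤ a) (r : ℕ) {b : ℝ}
    (hc : ∀ H : MvPolynomial (Fin (N + r + 1)) ℤ, H.IsHomogeneous e →
      Irreducible (map (Int.castRingHom ℚ) H) → GradD a b H) :
    ∀ H : MvPolynomial (Fin (N + 1)) ℤ, H.IsHomogeneous e →
      Irreducible (map (Int.castRingHom ℚ) H) → GradD a (b - r) H := by
  induction r generalizing b with
  | zero =>
    intro H hH hirr
    rw [Nat.cast_zero, sub_zero]
    exact hc H hH hirr
  | succ r ih =>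
    intro H hH hirr
    have h1 := ih (b := b - 1) (Sp_step ha hc) H hH hirr
    have h2 : b - ((r + 1 : ℕ) : ℝ) = b - 1 - r := by
      push_cast
      ring
    rw [h2]
    exact h1

private theorem Sp_E_of_D {n : ℕ} {a b : ℝ} (ha : 0 ≤ a) (hb : b < 0) {H : MvPolynomial (Fin (n + 1)) ℤ}
    (h : GradD a b H) : GradE a H := by
  obtain ⟨G, C, hG, hHG, hC⟩ := h
  obtain ⟨D, hD1, hD⟩ : ∃ D : ℕ, 1 ≤ D ∧ ∀ x : ℝ, (D : ℝ) ≤ x → C * x ^ b < 1 := by
    have h1 := (tendsto_rpow_neg_atTop (neg_pos.2 hb)).const_mul C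
    rw [neg_neg, mul_zero] at h1
    have h2 := h1.eventually (gt_mem_nhds (zero_lt_one (α := ℝ)))
    obtain ⟨x₀, hx₀⟩ := Filter.eventually_atTop.1 h2
    obtain ⟨j, hj⟩ := exists_nat_ge x₀
    refine ⟨max 1 j, le_max_left _ _, fun x hx => hx₀ x (hj.trans (le_trans ?_ hx))⟩
    exact_mod_cast le_max_right 1 j
  obtain ⟨C₁, hC₁0, hC₁⟩ := Sp_absorb H ha (D : ℝ)
  obtain ⟨C', hC'def⟩ : ∃ C', C' = max |C| C₁ := ⟨_, rfl⟩
  have hCC' : C ≤ C' := (le_abs_self C).trans (hC'def ▸ le_max_left _ _)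
  have hC1C' : C₁ ≤ C' := hC'def ▸ le_max_right _ _
  refine ⟨G, C', hG, hHG, fun p hp hp0 hpG => ?_⟩
  obtain ⟨B, hB⟩ := Sp_norm p
  rcases le_or_gt B D with hBD | hBD
  · exact hC₁ C' hC1C' p hp (by
      rw [hB]
      exact_mod_cast hBD)
  · have h1 := hC B (by omega)
    have h2 := hD B (by exact_mod_cast hBD.le)
    have h3 : (Bad a C H G B).ncard = 0 := by
      have h4 : (((Bad a C H G B).ncard : ℕ) : ℝ) < 1 := lt_of_le_of_lt h1 h2
      have h5 : (Bad a C H G B).ncard < 1 := by exact_mod_cast h4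
      omega
    rw [Set.ncard_eq_zero (Sp_finite a C H G B)] at h3
    have h4 : p ∉ Bad a C H G B := by
      rw [h3]
      exact Set.notMem_empty p
    have h5 : ¬ C * ‖p‖ ^ a * ((Finset.univ.gcd fun j => eval p (pderiv j H) : ℤ) : ℝ) <
        ‖fun j => eval p (pderiv j H)‖ := fun h5 => h4 ⟨hp, hp0, hpG, hB, h5⟩
    have h6 : (0 : ℝ) ≤ ((Finset.univ.gcd fun j => eval p (pderiv j H) : ℤ) : ℝ) := by
      exact_mod_cast Sp_gcd0 _
    refine (not_lt.1 h5).trans ?_
    gcongr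

private theorem Sp_D_of_X {n : ℕ} {a b : ℝ} {H : MvPolynomial (Fin (n + 1)) ℤ} (h : GradX a b H) : GradD a b H := by
  obtain ⟨G, C, hG, hHG, hC⟩ := h
  refine ⟨G, C, hG, hHG, fun B hB => le_trans ?_ (hC B (by exact_mod_cast hB))⟩
  have h1 : (Bad a C H G B).ncard ≤ _ := Set.ncard_le_ncard (s := Bad a C H G B)
    (t := {p : Fin (n + 1) → ℤ | Finset.univ.gcd p = 1 ∧ eval p H = 0 ∧ eval p G ≠ 0 ∧ ‖p‖ ≤ B ∧
        C * ‖p‖ ^ a * ((Finset.univ.gcd fun j => eval p (pderiv j H) : ℤ) : ℝ) <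
          ‖fun j => eval p (pderiv j H)‖}) (by
      rintro p ⟨hp1, hp2, hp3, hp4, hp5⟩
      exact ⟨hp1, hp2, hp3, hp4.le, hp5⟩) ((Sp_ball (B : ℝ)).subset fun p hp => hp.2.2.2.1)
  exact_mod_cast h1

/-- The inequality with at most `C B ^ b` exceptions for the forms of degree `e` in `N + r + 1` variables, where `b < r`,
implies the inequality without exceptions for the forms of degree `e` in `N + 1` variables. -/
theorem gradE_of_gradX_deg {N r e : ℕ} {a b : ℝ} (ha : 0 ≤ a) (hb : b < r)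
    (hc : ∀ H : MvPolynomial (Fin (N + r + 1)) ℤ, H.IsHomogeneous e →
      Irreducible (map (Int.castRingHom ℚ) H) → GradX a b H) (H : MvPolynomial (Fin (N + 1)) ℤ)
    (hH : H.IsHomogeneous e) (hirr : Irreducible (map (Int.castRingHom ℚ) H)) : GradE a H :=
  Sp_E_of_D ha (b := b - r) (by linarith) (Sp_iter ha r (fun H hH hirr => Sp_D_of_X (hc H hH hirr)) H hH hirr)

/-- The inequality with at most `C B ^ b` exceptions for the forms in `N + r + 1` variables, where `b < r`, implies the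
inequality without exceptions for the forms in `N + 1` variables. -/
theorem gradE_of_gradX {N r : ℕ} {a b : ℝ} (ha : 0 ≤ a) (hb : b < r)
    (hc : ∀ (e : ℕ) (H : MvPolynomial (Fin (N + r + 1)) ℤ), H.IsHomogeneous e →
      Irreducible (map (Int.castRingHom ℚ) H) → GradX a b H) (e : ℕ) (H : MvPolynomial (Fin (N + 1)) ℤ)
    (hH : H.IsHomogeneous e) (hirr : Irreducible (map (Int.castRingHom ℚ) H)) : GradE a H :=
  gradE_of_gradX_deg ha hb (hc e) H hH hirr

end Pool.Agent.Lib.MP_17a322_nt.GE
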