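import Pool.Agent.Lib.MP_17a322_nt.GS.Lin

/-!
A polynomial in `n + 1` variables has at most a constant times `B ^ n` integral zeros with `|p| ≤ B`.
-/

namespace Pool.Agent.Lib.MP_17a322_nt.GE

open MvPolynomial

/-- A polynomial has at most a constant times `B ^ n` integral zeros with `|p| ≤ B`. -/
theorem zeros_le {n : ℕ} {H : MvPolynomial (Fin (n + 1)) ℤ} (hH0 : H ≠ 0) {B : ℝ} (hB : 1 ≤ B) :
    (({p : Fin (n + 1) → ℤ | eval p H = 0 ∧ ‖p‖ ≤ B}.ncard : ℕ) : ℝ) ≤ H.totalDegree * 3 ^ n * B ^ n := by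
  have hB0 : 0 ≤ B := zero_le_one.trans hB
  obtain ⟨M, hM⟩ : ∃ M : ℕ, M = ⌊B⌋₊ := ⟨_, rfl⟩
  have hMB : (M : ℝ) ≤ B := by
    rw [hM]
    exact Nat.floor_le hB0
  obtain ⟨S, hS⟩ : ∃ S : Finset ℤ, S = Finset.Icc (-(M : ℤ)) M := ⟨_, rfl⟩
  have hSc : S.card = 2 * M + 1 := by
    rw [hS, Int.card_Icc]
    omega
  have h1 : {p : Fin (n + 1) → ℤ | eval p H = 0 ∧ ‖p‖ ≤ B} ⊆
      ((Finset.filter (fun f => eval f H = 0) (Fintype.piFinset fun _ : Fin (n + 1) => S) :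
        Finset (Fin (n + 1) → ℤ)) : Set (Fin (n + 1) → ℤ)) := by
    rintro p ⟨h2, h3⟩
    rw [Finset.mem_coe, Finset.mem_filter, Fintype.mem_piFinset]
    refine ⟨fun i => ?_, h2⟩
    have h4 : ((p i).natAbs : ℝ) ≤ B := by
      have h5 := (norm_le_pi_norm p i).trans h3
      rw [Int.norm_eq_abs] at h5
      rw [Nat.cast_natAbs, Int.cast_abs]
      exact h5
    have h5 : (p i).natAbs ≤ M := by
      rw [hM]
      exact Nat.le_floor h4
    rw [hS, Finset.mem_Icc]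
    omega
  have h2 := MvPolynomial.schwartz_zippel_totalDegree hH0 S
  rw [hSc] at h2
  have h3 : ((Finset.filter (fun f => eval f H = 0) (Fintype.piFinset fun _ : Fin (n + 1) => S)).card : ℚ) ≤
      H.totalDegree * ((2 * M + 1 : ℕ) : ℚ) ^ n := by
    have h4 : (0 : ℚ) < ((2 * M + 1 : ℕ) : ℚ) := by positivity
    have h5 : ((Finset.filter (fun f => eval f H = 0) (Fintype.piFinset fun _ : Fin (n + 1) => S)).card : ℚ) /
        ((2 * M + 1 : ℕ) : ℚ) ^ (n + 1) ≤ (H.totalDegree : ℚ) / ((2 * M + 1 : ℕ) : ℚ) := by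
      have h6 := NNRat.coe_le_coe.2 h2
      push_cast at h6 ⊢
      exact h6
    rw [div_le_div_iff₀ (by positivity) h4, pow_succ, ← mul_assoc] at h5
    exact le_of_mul_le_mul_right h5 h4
  have h4 : ((Finset.filter (fun f => eval f H = 0) (Fintype.piFinset fun _ : Fin (n + 1) => S)).card : ℝ) ≤
      H.totalDegree * ((2 * M + 1 : ℕ) : ℝ) ^ n := by exact_mod_cast h3
  have h5 := Set.ncard_le_ncard h1 (Finset.finite_toSet _)
  rw [Set.ncard_coe_finset] at h5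
  have h6 : ((2 * M + 1 : ℕ) : ℝ) ≤ 3 * B := by
    push_cast
    linarith
  have h7 : ((2 * M + 1 : ℕ) : ℝ) ^ n ≤ 3 ^ n * B ^ n := by
    refine (pow_le_pow_left₀ (Nat.cast_nonneg _) h6 n).trans (le_of_eq ?_)
    rw [mul_pow]
  refine (Nat.cast_le.2 h5).trans (h4.trans ?_)
  rw [mul_assoc]
  exact mul_le_mul_of_nonneg_left h7 (Nat.cast_nonneg _)

theorem zeros_le' {n : ℕ} {H : MvPolynomial (Fin (n + 1)) ℤ} (hH0 : H ≠ 0) {B b : ℝ} (hB : 1 ≤ B)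
    (hb : (n : ℝ) ≤ b) {Z : Set (Fin (n + 1) → ℤ)} (hZ : ∀ p ∈ Z, eval p H = 0 ∧ ‖p‖ ≤ B) :
    ((Z.ncard : ℕ) : ℝ) ≤ H.totalDegree * 3 ^ n * B ^ b := by
  have hfin : {p : Fin (n + 1) → ℤ | eval p H = 0 ∧ ‖p‖ ≤ B}.Finite :=
    (Sp_ball B).subset fun p hp => hp.2
  have h1 : Z.ncard ≤ {p : Fin (n + 1) → ℤ | eval p H = 0 ∧ ‖p‖ ≤ B}.ncard := Set.ncard_le_ncard hZ hfin
  refine (Nat.cast_le.2 h1).trans ((zeros_le hH0 hB).trans ?_)
  rw [← Real.rpow_natCast B n]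
  exact mul_le_mul_of_nonneg_left (Real.rpow_le_rpow_of_exponent_le hB hb) (by positivity)

end Pool.Agent.Lib.MP_17a322_nt.GE
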